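import Mathlib

set_option autoImplicit false

namespace Pool.Agent.H.MP_7c6dee_nt

def u : ℕ → ℕ
  | 0 => 213
  | (i + 1) => 4 * u i + 50

lemma u_mod (i : ℕ) : u i % 53 = 1 := by
  induction i with
  | zero => rfl
  | succ i ih => simp only [u]; omega

lemma u_ge (i : ℕ) : 213 + i ≤ u i := by
  induction i with
  | zero => simp [u]
  | succ i ih => simp only [u]; omega

lemma u_mono (i j : ℕ) (h : i ≤ j) : u i ≤ u j := by
  induction h with
  | refl => exact le_rfl
  | step _ ih => simp only [u]; omega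

lemma u_tri (i j : ℕ) : u i = u j ∨ 4 * u i + 50 ≤ u j ∨ 4 * u j + 50 ≤ u i := by
  rcases lt_trichotomy i j with h | h | h
  · right; left; exact u_mono (i + 1) j h
  · left; rw [h]
  · right; right; exact u_mono (j + 1) i h

lemma u_find (n : ℕ) (hn : u 2 ≤ n) : ∃ i, u (i + 2) ≤ n ∧ n < u (i + 3) := by
  induction n, hn using Nat.le_induction with
  | base => exact ⟨0, le_rfl, by decide⟩
  | succ n _ ih =>
    obtain ⟨i, h1, h2⟩ := ih
    by_cases h : n + 1 < u (i + 3)
    · exact ⟨i, by omega, h⟩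
    · refine ⟨i + 1, by show u (i + 3) ≤ n + 1; omega, ?_⟩
      show n + 1 < 4 * u (i + 3) + 50
      omega

def R0 : List ℕ := [1, 21, 20, 19, 33, 12, 4, 9, 10, 11, 17, 36, 37, 43, 51]
def F : List ℕ := [16, 24, 29, 47]

def S : Set ℕ := {n | (53 ≤ n ∧ n < 106 ∧ n % 53 ∈ R0) ∨ (212 ≤ n ∧ n % 53 ∈ F) ∨
  (n % 53 = 21 ∧ ∃ i, u i + 73 < n ∧ n ≤ 2 * u i + 19) ∨
  (n % 53 = 2 ∧ ∃ i, 2 * u i ≤ n ∧ n < 2 * u i + 212) ∨
  (n % 53 = 1 ∧ ∃ i, 2 * u i + 105 < n ∧ n ≤ 4 * u i + 50) ∨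
  (n % 53 = 42 ∧ ∃ i, 4 * u i + 38 ≤ n ∧ n < 4 * u i + 250)}

lemma mem_small (n : ℕ) (h1 : 53 ≤ n) (h2 : n < 106) (h : n % 53 ∈ R0) : n ∈ S := Or.inl ⟨h1, h2, h⟩
lemma mem_F (n : ℕ) (h1 : 212 ≤ n) (h : n % 53 ∈ F) : n ∈ S := Or.inr (Or.inl ⟨h1, h⟩)
lemma mem_D (n i : ℕ) (h : n % 53 = 21) (h1 : u i + 73 < n) (h2 : n ≤ 2 * u i + 19) : n ∈ S :=
  Or.inr (Or.inr (Or.inl ⟨h, i, h1, h2⟩))
lemma mem_B (n i : ℕ) (h : n % 53 = 2) (h1 : 2 * u i ≤ n) (h2 : n < 2 * u i + 212) : n ∈ S :=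
  Or.inr (Or.inr (Or.inr (Or.inl ⟨h, i, h1, h2⟩)))
lemma mem_A (n i : ℕ) (h : n % 53 = 1) (h1 : 2 * u i + 105 < n) (h2 : n ≤ 4 * u i + 50) : n ∈ S :=
  Or.inr (Or.inr (Or.inr (Or.inr (Or.inl ⟨h, i, h1, h2⟩))))
lemma mem_C (n i : ℕ) (h : n % 53 = 42) (h1 : 4 * u i + 38 ≤ n) (h2 : n < 4 * u i + 250) : n ∈ S :=
  Or.inr (Or.inr (Or.inr (Or.inr (Or.inr ⟨h, i, h1, h2⟩))))

lemma dich (n : ℕ) (h : n ∈ S) : (53 ≤ n ∧ n < 106 ∧ n % 53 ∈ R0) ∨
    (212 ≤ n ∧ n % 53 ∈ [16, 24, 29, 47, 1, 21, 2, 42]) := by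
  rcases h with h | h | ⟨h, i, h1, _⟩ | ⟨h, i, h1, _⟩ | ⟨h, i, h1, _⟩ | ⟨h, i, h1, _⟩
  · exact Or.inl h
  · refine Or.inr ⟨h.1, ?_⟩
    have := h.2
    simp only [F, List.mem_cons, List.not_mem_nil, or_false] at this ⊢
    omega
  all_goals
    have := u_ge i
    refine Or.inr ⟨by omega, by rw [h]; decide⟩

lemma inv_A (n : ℕ) (h : n ∈ S) (hr : n % 53 = 1) :
    n = 54 ∨ ∃ i, 2 * u i + 105 < n ∧ n ≤ 4 * u i + 50 := by
  rcases h with h | h | h | h | h | h
  · left; omega
  · exfalso; have := h.2; rw [hr] at this; revert this; decide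
  · omega
  · omega
  · exact Or.inr h.2
  · omega

lemma inv_D (n : ℕ) (h : n ∈ S) (hr : n % 53 = 21) :
    n = 74 ∨ ∃ i, u i + 73 < n ∧ n ≤ 2 * u i + 19 := by
  rcases h with h | h | h | h | h | h
  · left; omega
  · exfalso; have := h.2; rw [hr] at this; revert this; decide
  · exact Or.inr h.2
  · omega
  · omega
  · omega

lemma inv_B (n : ℕ) (h : n ∈ S) (hr : n % 53 = 2) :
    ∃ i, 2 * u i ≤ n ∧ n < 2 * u i + 212 := by
  rcases h with h | h | h | h | h | h
  · exfalso; have := h.2.2; rw [hr] at this; revert this; decide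
  · exfalso; have := h.2; rw [hr] at this; revert this; decide
  · omega
  · exact h.2
  · omega
  · omega

lemma inv_C (n : ℕ) (h : n ∈ S) (hr : n % 53 = 42) :
    ∃ i, 4 * u i + 38 ≤ n ∧ n < 4 * u i + 250 := by
  rcases h with h | h | h | h | h | h
  · exfalso; have := h.2.2; rw [hr] at this; revert this; decide
  · exfalso; have := h.2; rw [hr] at this; revert this; decide
  · omega
  · omega
  · omega
  · exact h.2

lemma res_key : ∀ r1 ∈ R0 ++ [16, 24, 29, 47, 1, 21, 2, 42], ∀ r2 ∈ [16, 24, 29, 47, 1, 21, 2, 42],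
    (r1 + r2) % 53 ∈ [16, 24, 29, 47, 1, 21, 2, 42] →
    (r1 = 1 ∧ r2 = 1) ∨ (r1 = 21 ∧ r2 = 21) ∨ (r1 = 20 ∧ r2 = 1) ∨ (r1 = 19 ∧ r2 = 2) ∨
      (r1 = 33 ∧ r2 = 21) ∨ (r1 = 12 ∧ r2 = 42) := by decide

lemma sumfree_aux (s t : ℕ) (hs : s ∈ S) (ht : t ∈ S) (htb : 212 ≤ t) (hne : s ≠ t) (hst : s + t ∈ S) : False := by
  have d1 := dich s hs
  have d2 := dich t ht
  have d3 := dich _ hst
  have r1 : s % 53 ∈ R0 ++ [16, 24, 29, 47, 1, 21, 2, 42] := by
    rcases d1 with h | h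
    · exact List.mem_append_left _ h.2.2
    · exact List.mem_append_right _ h.2
  have r2 : t % 53 ∈ [16, 24, 29, 47, 1, 21, 2, 42] := by
    rcases d2 with h | h
    · omega
    · exact h.2
  have r3 : (s % 53 + t % 53) % 53 ∈ [16, 24, 29, 47, 1, 21, 2, 42] := by
    rcases d3 with h | h
    · omega
    · rw [← Nat.add_mod]; exact h.2
  have hsm : ∀ r, s % 53 = r → r ∉ [16, 24, 29, 47, 1, 21, 2, 42] → s = 53 + r := by
    intro r hr hn
    rcases d1 with h | h
    · omega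
    · exact absurd (hr ▸ h.2) hn
  clear d1 d2 d3
  rcases res_key _ r1 _ r2 r3 with h | h | h | h | h | h
  all_goals clear r1 r2 r3
  · obtain ⟨k, k1, k2⟩ := inv_B _ hst (by omega)
    rcases inv_A t ht h.2 with e | ⟨j, j1, j2⟩
    · omega
    have := u_tri j k; have := u_mod j; have := u_mod k; have := u_ge j; have := u_ge k
    rcases inv_A s hs h.1 with e | ⟨i, i1, i2⟩
    · omega
    · have := u_tri i k; have := u_mod i; have := u_ge i
      omega
  · obtain ⟨k, k1, k2⟩ := inv_C _ hst (by omega)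
    rcases inv_D t ht h.2 with e | ⟨j, j1, j2⟩
    · omega
    have := u_tri j k; have := u_tri j (k + 1); have := u_mod j; have := u_mod k
    have := u_ge j; have := u_ge k
    have e : u (k + 1) = 4 * u k + 50 := rfl
    rcases inv_D s hs h.1 with e | ⟨i, i1, i2⟩
    · omega
    · have := u_tri i k; have := u_tri i (k + 1); have := u_mod i; have := u_ge i
      omega
  · have e := hsm 20 h.1 (by decide)
    rcases inv_D _ hst (by omega) with e | ⟨k, k1, k2⟩
    · omega
    rcases inv_A t ht h.2 with e | ⟨j, j1, j2⟩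
    · omega
    have := u_tri j k; have := u_mod j; have := u_mod k; have := u_ge j; have := u_ge k
    omega
  · have e := hsm 19 h.1 (by decide)
    rcases inv_D _ hst (by omega) with e | ⟨k, k1, k2⟩
    · omega
    obtain ⟨j, j1, j2⟩ := inv_B t ht h.2
    have := u_tri j k; have := u_mod j; have := u_mod k; have := u_ge j; have := u_ge k
    omega
  · have e := hsm 33 h.1 (by decide)
    rcases inv_A _ hst (by omega) with e | ⟨k, k1, k2⟩
    · omega
    rcases inv_D t ht h.2 with e | ⟨j, j1, j2⟩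
    · omega
    have := u_tri j k; have := u_mod j; have := u_mod k; have := u_ge j; have := u_ge k
    omega
  · have e := hsm 12 h.1 (by decide)
    rcases inv_A _ hst (by omega) with e | ⟨k, k1, k2⟩
    · omega
    obtain ⟨j, j1, j2⟩ := inv_C t ht h.2
    have := u_tri j k; have := u_mod j; have := u_mod k; have := u_ge j; have := u_ge k
    omega

lemma sumfree : ∀ s ∈ S, ∀ t ∈ S, s ≠ t → s + t ∉ S := by
  intro s hs t ht hne hst
  by_cases h1 : 212 ≤ t
  · exact sumfree_aux s t hs ht h1 hne hst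
  by_cases h2 : 212 ≤ s
  · exact sumfree_aux t s ht hs h2 hne.symm (by rwa [add_comm])
  have d1 := dich s hs
  have d2 := dich t ht
  have d3 := dich _ hst
  omega

lemma cover_key : ∀ c < 53, c ∈ F ∨ c = 1 ∨ c = 21 ∨ c = 2 ∨ c = 42 ∨
    (∃ r ∈ R0, r < 53 ∧ (c + 53 - r) % 53 ∈ F) ∨ (∃ r ∈ F, r < 53 ∧ (c + 53 - r) % 53 ∈ F) := by decide

lemma complete (n : ℕ) (hn : 5000 ≤ n) : n ∈ S ∨ ∃ s ∈ S, ∃ t ∈ S, s < t ∧ s + t = n := by
  obtain ⟨i, h1, h2⟩ := u_find n (by show 4 * (4 * 213 + 50) + 50 ≤ n; omega)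
  have e1 : u (i + 1) = 4 * u i + 50 := rfl
  have e2 : u (i + 2) = 4 * u (i + 1) + 50 := rfl
  have e3 : u (i + 3) = 4 * u (i + 2) + 50 := rfl
  have m0 := u_mod i
  have g0 := u_ge i
  have s54 : 54 ∈ S := mem_small _ (by norm_num) (by norm_num) (by decide)
  have s74 : 74 ∈ S := mem_small _ (by norm_num) (by norm_num) (by decide)
  have s73 : 73 ∈ S := mem_small _ (by norm_num) (by norm_num) (by decide)
  have s72 : 72 ∈ S := mem_small _ (by norm_num) (by norm_num) (by decide)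
  have s86 : 86 ∈ S := mem_small _ (by norm_num) (by norm_num) (by decide)
  have s65 : 65 ∈ S := mem_small _ (by norm_num) (by norm_num) (by decide)
  rcases cover_key (n % 53) (Nat.mod_lt _ (by norm_num)) with h | h | h | h | h | ⟨r, hr, hr2, h⟩ | ⟨r, hr, hr2, h⟩
  · exact Or.inl (mem_F n (by omega) h)
  · by_cases c1 : n = u (i + 2)
    · exact Or.inl (mem_A n (i + 1) h (by omega) (by omega))
    by_cases c2 : 2 * u (i + 2) + 105 < n
    · exact Or.inl (mem_A n (i + 2) h (by omega) (by omega))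
    by_cases c3 : u (i + 2) + 159 < n
    · exact Or.inr ⟨86, s86, n - 86, mem_D _ (i + 2) (by omega) (by omega) (by omega), by omega⟩
    · exact Or.inr ⟨65, s65, n - 65, mem_C _ (i + 1) (by omega) (by omega) (by omega), by omega⟩
  · by_cases c1 : n ≤ u (i + 2) + 73
    · exact Or.inr ⟨73, s73, n - 73, mem_A _ (i + 1) (by omega) (by omega) (by omega), by omega⟩
    by_cases c2 : n ≤ 2 * u (i + 2) + 19
    · exact Or.inl (mem_D n (i + 2) h (by omega) (by omega))
    by_cases c3 : n < 2 * u (i + 2) + 284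
    · exact Or.inr ⟨72, s72, n - 72, mem_B _ (i + 2) (by omega) (by omega) (by omega), by omega⟩
    · exact Or.inr ⟨73, s73, n - 73, mem_A _ (i + 2) (by omega) (by omega) (by omega), by omega⟩
  · by_cases c1 : n ≤ u (i + 2) + u (i + 1)
    · exact Or.inr ⟨u (i + 1), mem_A _ i (by omega) (by omega) (by omega), n - u (i + 1),
        mem_A _ (i + 1) (by omega) (by omega) (by omega), by omega⟩
    by_cases c2 : n ≤ u (i + 2) + 2 * u (i + 1) + 158
    · exact Or.inr ⟨2 * u (i + 1) + 158, mem_A _ (i + 1) (by omega) (by omega) (by omega),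
        n - (2 * u (i + 1) + 158), mem_A _ (i + 1) (by omega) (by omega) (by omega), by omega⟩
    by_cases c3 : n < 2 * u (i + 2)
    · exact Or.inr ⟨n - u (i + 2), mem_A _ (i + 1) (by omega) (by omega) (by omega),
        u (i + 2), mem_A _ (i + 1) (by omega) (by omega) (by omega), by omega⟩
    by_cases c4 : n < 2 * u (i + 2) + 212
    · exact Or.inl (mem_B n (i + 2) h (by omega) (by omega))
    · exact Or.inr ⟨54, s54, n - 54, mem_A _ (i + 2) (by omega) (by omega) (by omega), by omega⟩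
  · by_cases c1 : n < u (i + 2) + 200
    · exact Or.inl (mem_C n (i + 1) h (by omega) (by omega))
    by_cases c2 : n ≤ 2 * u (i + 2) + 93
    · exact Or.inr ⟨74, s74, n - 74, mem_D _ (i + 2) (by omega) (by omega) (by omega), by omega⟩
    by_cases c3 : n ≤ 2 * u (i + 2) + 19 + (2 * u (i + 1) + 19)
    · exact Or.inr ⟨2 * u (i + 1) + 19, mem_D _ (i + 1) (by omega) (by omega) (by omega),
        n - (2 * u (i + 1) + 19), mem_D _ (i + 2) (by omega) (by omega) (by omega), by omega⟩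
    by_cases c4 : n ≤ 3 * u (i + 2) + 145
    · exact Or.inr ⟨u (i + 2) + 126, mem_D _ (i + 2) (by omega) (by omega) (by omega),
        n - (u (i + 2) + 126), mem_D _ (i + 2) (by omega) (by omega) (by omega), by omega⟩
    by_cases c5 : n < 4 * u (i + 2) + 38
    · exact Or.inr ⟨n - (2 * u (i + 2) + 19), mem_D _ (i + 2) (by omega) (by omega) (by omega),
        2 * u (i + 2) + 19, mem_D _ (i + 2) (by omega) (by omega) (by omega), by omega⟩
    · exact Or.inl (mem_C n (i + 2) h (by omega) (by omega))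
  · refine Or.inr ⟨53 + r, mem_small _ (by omega) (by omega) ?_, n - (53 + r), mem_F _ (by omega) ?_, by omega⟩
    · have : (53 + r) % 53 = r := by omega
      rwa [this]
    · have : (n - (53 + r)) % 53 = (n % 53 + 53 - r) % 53 := by omega
      rwa [this]
  · refine Or.inr ⟨212 + r, mem_F _ (by omega) ?_, n - (212 + r), mem_F _ (by omega) ?_, by omega⟩
    · have : (212 + r) % 53 = r := by omega
      rwa [this]
    · have : (n - (212 + r)) % 53 = (n % 53 + 53 - r) % 53 := by omega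
      rwa [this]

lemma no_shift (q N : ℕ) (hq : 0 < q) (h : ∀ n, N ≤ n → n ∈ S → n + q ∈ S) : False := by
  have iter : ∀ k n, N ≤ n → n ∈ S → n + k * q ∈ S := by
    intro k
    induction k with
    | zero => intro n _ h; simpa using h
    | succ k ih =>
      intro n hn h'
      have := h (n + k * q) (by omega) (ih n hn h')
      rwa [show n + (k + 1) * q = n + k * q + q by ring]
  have g := u_ge (N + 265 * q)
  have md := u_mod (N + 265 * q)
  have h1 : 2 * u (N + 265 * q) + 53 ∈ S := mem_B _ (N + 265 * q) (by omega) (by omega) (by omega)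
  have h2 := iter 265 _ (by omega) h1
  obtain ⟨j, j1, j2⟩ := inv_B _ h2 (by omega)
  have := u_tri j (N + 265 * q)
  have := u_ge j
  omega

lemma S_infinite : (setOf (fun n => n ∈ S)).Infinite := by
  apply Set.infinite_of_forall_exists_gt
  intro a
  exact ⟨53 * a + 228, mem_F _ (by omega) (by
    have : (53 * a + 228) % 53 = 16 := by omega
    rw [this]; decide), by omega⟩

theorem main : ∃ (m : ℕ) (v : ℕ → ℕ), 1 ≤ m ∧ (∀ i, i < m → 0 < v i) ∧
    (∀ i, i + 1 < m → v i < v (i + 1)) ∧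
    (∀ n, m ≤ n →
      IsLeast {x : ℕ | v (n - 1) < x ∧ ∀ i j, i < j → j < n → x ≠ v i + v j} (v n)) ∧
    ¬ ∃ N p : ℕ, 1 ≤ p ∧ ∀ n, N ≤ n →
      ((v (n + p + 1) : ℤ) - (v (n + p) : ℤ)) = ((v (n + 1) : ℤ) - (v n : ℤ)) := by
  have hm : StrictMono (Nat.nth (fun n => n ∈ S)) := Nat.nth_strictMono S_infinite
  have hmem : ∀ i, Nat.nth (fun n => n ∈ S) i ∈ S := fun i => Nat.nth_mem_of_infinite S_infinite i
  have hsur : ∀ s ∈ S, ∃ i, Nat.nth (fun n => n ∈ S) i = s := by
    intro s hs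
    have : s ∈ Set.range (Nat.nth (fun n => n ∈ S)) := by
      rw [Nat.range_nth_of_infinite S_infinite]; exact hs
    exact this
  generalize Nat.nth (fun n => n ∈ S) = v at hm hmem hsur
  refine ⟨5001, v, by norm_num, ?_, ?_, ?_, ?_⟩
  · intro i _
    have := dich _ (hmem i)
    omega
  · intro i _
    exact hm (Nat.lt_succ_self i)
  · intro n hn
    constructor
    · refine ⟨hm (by omega), ?_⟩
      intro i j hij _ h
      exact sumfree _ (hmem i) _ (hmem j) (hm hij).ne (h ▸ hmem n)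
    · rintro x ⟨hx1, hx2⟩
      by_contra hlt
      push Not at hlt
      have hge : n - 1 ≤ v (n - 1) := hm.le_apply
      rcases complete x (by omega) with h | ⟨s, hs, t, ht, hst, h⟩
      · obtain ⟨k, rfl⟩ := hsur x h
        have a1 := hm.lt_iff_lt.mp hx1
        have a2 := hm.lt_iff_lt.mp hlt
        omega
      · obtain ⟨i, rfl⟩ := hsur s hs
        obtain ⟨j, rfl⟩ := hsur t ht
        exact hx2 i j (hm.lt_iff_lt.mp hst) (hm.lt_iff_lt.mp (by omega)) h.symm
  · rintro ⟨N, p, hp, h⟩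
    have hlt : v N < v (N + p) := hm (by omega)
    have key : ∀ k, N ≤ k → v (k + p) = v k + (v (N + p) - v N) := by
      intro k hk
      induction k, hk using Nat.le_induction with
      | base => omega
      | succ k hk ih =>
        have := h k hk
        rw [show k + 1 + p = k + p + 1 by ring]
        omega
    apply no_shift (v (N + p) - v N) (v N) (by omega)
    intro n hn hS
    obtain ⟨k, rfl⟩ := hsur n hS
    rw [← key k (hm.le_iff_le.mp hn)]
    exact hmem _

end Pool.Agent.H.MP_7c6dee_nt
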